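import Mathlib
import Pool.Agent.H480R2.RS.Param
import Pool.Agent.H480R2.RS.HG

set_option autoImplicit false

/-!
The (6,3) problem: `ex^3(n,6,3) ≥ n² exp(-2 √(ln(4/3) ln n) - 11 (ln n)^(1/4))` for all large `n`.
-/

namespace Pool.Agent.Results.MP_3cac6c_co.SixThreeLower

open Pool.Agent.H480R2.RS

theorem result : ∃ n₀ : ℕ, ∀ n : ℕ, n₀ ≤ n →
    (n : ℝ) ^ 2 * Real.exp (-(2 * √(Real.log (4 / 3) * Real.log n)) -
      11 * (Real.log n) ^ ((1 : ℝ) / 4)) ≤ (ex63 n : ℝ) := by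
  obtain ⟨n₀, h⟩ := param
  refine ⟨n₀, fun n hn => ?_⟩
  obtain ⟨D, R, K, h1, h2⟩ := h n hn
  exact h2.trans (Nat.cast_le.2 (ex63_ge h1))

end Pool.Agent.Results.MP_3cac6c_co.SixThreeLower
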